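import Mathlib

set_option autoImplicit false

namespace Pool.Agent.Results.MP_cd0533_lc.Nonzero

lemma four_sq (x : ℚ) (hx : 0 ≤ x) : ∃ a b c d : ℚ, x = a * a + b * b + c * c + d * d := by
  obtain ⟨a, b, c, d, h⟩ := Nat.sum_four_squares (x.num.toNat * x.den)
  have hd : (x.den : ℚ) ≠ 0 := by exact_mod_cast x.den_ne_zero
  have hn : ((x.num.toNat : ℕ) : ℚ) = x * x.den := by
    have h1 : ((x.num.toNat : ℕ) : ℤ) = x.num := Int.toNat_of_nonneg (Rat.num_nonneg.mpr hx)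
    have h2 : ((x.num.toNat : ℕ) : ℚ) = (x.num : ℚ) := by exact_mod_cast h1
    rw [h2, Rat.mul_den_eq_num]
  have h' : (a : ℚ) ^ 2 + (b : ℚ) ^ 2 + (c : ℚ) ^ 2 + (d : ℚ) ^ 2 = x * x.den * x.den := by
    rw [← hn]; exact_mod_cast h
  refine ⟨a / x.den, b / x.den, c / x.den, d / x.den, ?_⟩
  field_simp
  linarith

lemma small (x : ℚ) (hx : 0 < x) : ∃ u v : ℚ, u * u ≤ x ∧ u * u + 2 = v * v := by
  have hc : ContinuousAt (fun s : ℝ => ((2 / s - s) / 2) ^ 2) (Real.sqrt 2) := by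
    have : Real.sqrt 2 ≠ 0 := by positivity
    fun_prop (disch := assumption)
  have h0 : ((2 / Real.sqrt 2 - Real.sqrt 2) / 2) ^ 2 < (x : ℝ) := by
    rw [Real.div_sqrt]; simpa using hx
  have h1 := hc.eventually (gt_mem_nhds h0)
  have h2 : ∀ᶠ s in nhds (Real.sqrt 2), 0 < s := lt_mem_nhds (by positivity)
  obtain ⟨s, hs1, hs2⟩ := Rat.denseRange_cast.mem_nhds (h1.and h2)
  have hs : (0 : ℚ) < s := by exact_mod_cast hs2
  have hs' : ((2 / s - s) / 2) ^ 2 < x := by exact_mod_cast hs1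
  refine ⟨(2 / s - s) / 2, (2 / s + s) / 2, by nlinarith, ?_⟩
  field_simp
  ring

lemma pos_iff (x : ℚ) : 0 < x ↔ ∃ y : Fin 5 → ℚ, x = y 0 + y 1 + y 2 + y 3 + y 4 ∧
    (∀ l, IsSquare (y l)) ∧ IsSquare (y 0 + 2) := by
  constructor
  · intro hx
    obtain ⟨u, v, h1, h2⟩ := small x hx
    obtain ⟨a, b, c, d, h⟩ := four_sq (x - u * u) (by linarith)
    refine ⟨![u * u, a * a, b * b, c * c, d * d], by simp; linarith, ?_, ⟨v, by simpa using h2⟩⟩
    intro l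
    fin_cases l <;> simp
  · rintro ⟨y, h, hs, v, hv⟩
    have hn : ∀ l, 0 ≤ y l := fun l => (hs l).nonneg
    have h0 : y 0 ≠ 0 := by
      intro h0
      rw [h0, zero_add] at hv
      have : IsSquare (2 : ℚ) := ⟨v, hv⟩
      revert this
      norm_num
    have := lt_of_le_of_ne (hn 0) h0.symm
    linarith [hn 1, hn 2, hn 3, hn 4]

/-- The set of nonzero rationals is positive-existentially definable in the rationals with
0, 1, + and the predicate of squares. -/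
theorem result :
    ∃ (k m e s : ℕ) (α : Fin k → Fin e → ℤ) (β : Fin k → Fin e → Fin m → ℤ)
      (γ : Fin k → Fin e → ℤ) (p : Fin k → Fin s → ℕ) (q : Fin k → Fin s → Fin m → ℕ)
      (r : Fin k → Fin s → ℕ),
      ∀ x : ℚ, x ≠ 0 ↔ ∃ i : Fin k, ∃ y : Fin m → ℚ,
        (∀ j : Fin e, (α i j : ℚ) * x + (∑ l : Fin m, (β i j l : ℚ) * y l) + (γ i j : ℚ) = 0) ∧
        (∀ j : Fin s,
          IsSquare ((p i j : ℚ) * x + (∑ l : Fin m, (q i j l : ℚ) * y l) + (r i j : ℚ))) := by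
  refine ⟨2, 5, 1, 6, ![fun _ => 1, fun _ => -1], fun _ _ _ => -1, fun _ _ => 0, fun _ _ => 0,
    fun _ => ![![1, 0, 0, 0, 0], ![0, 1, 0, 0, 0], ![0, 0, 1, 0, 0], ![0, 0, 0, 1, 0],
      ![0, 0, 0, 0, 1], ![1, 0, 0, 0, 0]], fun _ => ![0, 0, 0, 0, 0, 2], fun x => ?_⟩
  have key : ∀ y : Fin 5 → ℚ, (∀ j : Fin 6, IsSquare ((((0 : ℕ) : ℚ)) * x +
      (∑ l : Fin 5, (((![![1, 0, 0, 0, 0], ![0, 1, 0, 0, 0], ![0, 0, 1, 0, 0], ![0, 0, 0, 1, 0],
        ![0, 0, 0, 0, 1], ![1, 0, 0, 0, 0]] : Fin 6 → Fin 5 → ℕ) j l : ℕ) : ℚ) * y l) +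
        (((![0, 0, 0, 0, 0, 2] : Fin 6 → ℕ) j : ℕ) : ℚ))) ↔
      (∀ l, IsSquare (y l)) ∧ IsSquare (y 0 + 2) := by
    intro y
    simp [Fin.forall_fin_succ, Fin.sum_univ_succ, and_assoc]
  constructor
  · intro hx
    rcases lt_or_gt_of_ne hx with h | h
    · obtain ⟨y, h1, h2⟩ := (pos_iff (-x)).mp (by linarith)
      refine ⟨1, y, fun j => ?_, (key y).mpr h2⟩
      simp [Fin.sum_univ_succ]; linarith
    · obtain ⟨y, h1, h2⟩ := (pos_iff x).mp h
      refine ⟨0, y, fun j => ?_, (key y).mpr h2⟩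
      simp [Fin.sum_univ_succ]; linarith
  · rintro ⟨i, y, h1, h2⟩
    have h3 := (key y).mp h2
    have h4 := h1 0
    fin_cases i
    · have : 0 < x := (pos_iff x).mpr ⟨y, by simp [Fin.sum_univ_succ] at h4; linarith, h3⟩
      exact this.ne'
    · have : 0 < -x := (pos_iff (-x)).mpr ⟨y, by simp [Fin.sum_univ_succ] at h4; linarith, h3⟩
      intro h; rw [h] at this; simp at this

end Pool.Agent.Results.MP_cd0533_lc.Nonzero
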